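import Mathlib
import Pool.Agent.H.MP_61cfb3_pr.A

namespace Pool.Agent.Results.MP_61cfb3_pr.Retrace

open Set Pool.Agent.H.MP_61cfb3_pr

theorem result (p : ℝ) (hp0 : 0 < p) (hp1 : p < 1) :
    ∃ (S : ℝ → ℝ) (c : ℝ), S 0 = 0 ∧ LipschitzWith 1 S ∧ c < p / (2 - p) + 8 / p ∧
      ∀ H : ℝ, H ≠ 0 → (∀ T : ℝ, {u | 0 ≤ u ∧ u ≤ T ∧ S u = H}.Finite) ∧
        ∃ t : ℕ → ℝ, StrictMono t ∧ range t = {u | 0 ≤ u ∧ S u = H} ∧
          Summable (fun i => (1 - p) ^ i * p * t i) ∧
          ∑' i, (1 - p) ^ i * p * t i ≤ c * |H| := by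
  obtain ⟨r, hr⟩ : ∃ r, r = 2 - p := ⟨_, rfl⟩
  obtain ⟨d, hd⟩ : ∃ d, d = p * (1 - p) / 16 := ⟨_, rfl⟩
  have r1 : 1 < r := by linarith
  have r2 : r < 2 := by linarith
  have q0 : 0 < 1 - p := by linarith
  have d0 : 0 < d := by rw [hd]; positivity
  obtain ⟨a, ha'⟩ : ∃ a, a = 2 / r := ⟨_, rfl⟩
  obtain ⟨b, hb'⟩ : ∃ b, b = r ^ 2 / 4 := ⟨_, rfl⟩
  obtain ⟨τ, hτ'⟩ : ∃ τ, τ = (2 + 2 * d) * r / p := ⟨_, rfl⟩
  obtain ⟨X, hX⟩ : ∃ X, X = (2 + 2 * d) * r ^ 2 / p + 2 * p * d := ⟨_, rfl⟩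
  have ha : 1 < a := by rw [ha', lt_div_iff₀ (by linarith)]; linarith
  have b0 : 0 < b := by rw [hb']; positivity
  have X0 : 0 < X := by rw [hX]; positivity
  have τ0 : 0 < τ := by rw [hτ']; positivity
  have hb : a ^ 2 * b = 1 := by rw [ha', hb']; field_simp; norm_num
  have hτ : τ * (a - 1) = 2 + 2 * d := by
    rw [hτ', ha']; field_simp; rw [hr]; ring
  have hq' : 1 - (1 - p) * a = p / r := by rw [ha']; field_simp; rw [hr]; ring
  have hq : (1 - p) * a < 1 := by
    have : 0 < p / r := by positivity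
    linarith
  have cA : X / (b + d) < 8 / p := by
    rw [div_lt_div_iff₀ (by linarith) hp0, hX, hb']
    field_simp
    have : p ^ 2 + r ^ 2 < 4 := by rw [hr]; nlinarith
    nlinarith
  have cB : p + p * τ / b + (1 - p) * (p / r + X / b) < p / r + 8 / p := by
    have e1 : p * τ / b = 8 / r + d * (8 / r) := by rw [hτ', hb']; field_simp; ring
    have e2 : X / b = 8 / p + d * (8 / p) + d * (8 * p / r ^ 2) := by
      rw [hX, hb']; field_simp; ring
    have e3 : p / r + 8 / p - (p + 8 / r + (1 - p) * (p / r + 8 / p)) =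
        2 * (1 - p) * (4 - p) / r := by field_simp; rw [hr]; ring
    have e4 : 3 * (1 - p) ≤ 2 * (1 - p) * (4 - p) / r := by
      rw [le_div_iff₀ (by linarith)]; nlinarith
    have e5 : 8 / r ≤ 8 := div_le_self (by norm_num) r1.le
    have e6 : 8 * p / r ^ 2 ≤ 8 := by rw [div_le_iff₀ (by positivity)]; nlinarith
    have e7 : d * (8 / p) = (1 - p) / 2 := by rw [hd]; field_simp; ring
    have e8 : d ≤ (1 - p) / 16 := by rw [hd]; nlinarith
    have e9 : d * (8 / r) ≤ d * 8 := mul_le_mul_of_nonneg_left e5 d0.le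
    have e10 : d * (8 * p / r ^ 2) ≤ d * 8 := mul_le_mul_of_nonneg_left e6 d0.le
    have e11 : (1 - p) * (d * (8 / p) + d * (8 * p / r ^ 2)) ≤
        1 * (d * (8 / p) + d * (8 * p / r ^ 2)) :=
      mul_le_mul_of_nonneg_right (by linarith) (by positivity)
    rw [e1, e2]
    nlinarith
  obtain ⟨S, hS0, hS⟩ := exS b ha d0 hτ
  refine ⟨S, max (p / r + X / (b + d)) (p + p * τ / b + (1 - p) * (p / r + X / b)), hS0 0 le_rfl,
    lipS b0.le ha d0 hτ hS0 hS, by rw [← hr]; exact max_lt (by linarith) cB, fun H hH => ?_⟩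
  have hf := finS b0.le ha d0 hτ hS0 hS hH
  refine ⟨hf, ?_⟩
  obtain ⟨m, h, h0, h1, hH1, hH2⟩ := decH ha hH
  have ha2 : 1 < a ^ 2 := by nlinarith
  have hbh : b ≤ h := by
    by_contra hc
    nlinarith [not_le.1 hc]
  have hh : 0 < h := by linarith
  have hm : 0 < a ^ m := zpow_pos (by linarith) m
  have wm := w_mono ha d0 hτ hh h1
  have w0 : w a d τ h 0 = τ + h + 2 * d := by simp [w]
  have ws : HasSum (fun k => (1 - p) ^ k * p * w a d τ h k) (X + p / r * h) := by
    have e : X + p / r * h =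
        p * τ * (1 - (1 - p) * a)⁻¹ + p * h * (1 - -(1 - p))⁻¹ + p * (2 * d) := by
      rw [hq', hX, hτ', show 1 - -(1 - p) = r by linarith]
      field_simp
      ring
    rw [e]
    exact w_sum ha hp0 hp1 hq
  have hZ : ∀ x ∈ {u | 0 ≤ u ∧ S u = H}, 0 < x := by
    rintro x ⟨-, hx⟩
    by_contra hc
    exact hH (hx ▸ hS0 x (not_lt.1 hc))
  have fin : ∀ (u : ℕ → ℝ) (E : ℝ), StrictMono u → 0 < u 0 → (∀ i, S (a ^ m * u i) = H) →
      HasSum (fun k => (1 - p) ^ k * p * u k) E → ∀ c, E ≤ c * h →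
      ∃ t : ℕ → ℝ, StrictMono t ∧ range t = {u | 0 ≤ u ∧ S u = H} ∧
        Summable (fun i => (1 - p) ^ i * p * t i) ∧ ∑' i, (1 - p) ^ i * p * t i ≤ c * |H| := by
    intro u E um u0 uS uE c hc
    obtain ⟨t, tm, tr, tu⟩ := enum _ hZ (fun T => (hf T).subset fun x hx => ⟨hx.1.1, hx.2, hx.1.2⟩)
      (fun i => a ^ m * u i) (um.const_mul hm)
      (fun i => ⟨mul_nonneg hm.le (u0.le.trans (um.monotone (Nat.zero_le i))), uS i⟩)
    have le : ∀ i, (1 - p) ^ i * p * t i ≤ a ^ m * ((1 - p) ^ i * p * u i) := fun i => by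
      rw [mul_left_comm]
      exact mul_le_mul_of_nonneg_left (tu i) (by positivity)
    have sm : Summable (fun i => (1 - p) ^ i * p * t i) :=
      Summable.of_nonneg_of_le (fun i => mul_nonneg (by positivity)
        (hZ _ (tr ▸ mem_range_self i)).le) le (uE.mul_left _).summable
    refine ⟨t, tm, tr, sm, (hasSum_le le sm.hasSum (uE.mul_left _)).trans ?_⟩
    rw [hH2, mul_left_comm]
    exact mul_le_mul_of_nonneg_left hc hm.le
  have wS : ∀ i, S (a ^ m * w a d τ h i) = H := fun i => by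
    rw [hH1]; exact w_mem ha d0 hτ hb hS h0 h1 m i
  by_cases hc : b + d ≤ h
  · refine fin _ _ wm (by rw [w0]; linarith) wS ws _
      (le_trans ?_ (mul_le_mul_of_nonneg_right (le_max_left _ _) hh.le))
    have : X ≤ X / (b + d) * h := by
      rw [div_mul_eq_mul_div, le_div_iff₀ (by linarith)]
      exact mul_le_mul_of_nonneg_left hc X0.le
    linarith
  · let u : ℕ → ℝ := fun k => Nat.casesOn k (τ + h) (w a d τ h)
    refine fin u (p * (τ + h) + (1 - p) * (X + p / r * h))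
      (strictMono_nat_of_lt_succ fun k => ?_) (by show 0 < τ + h; linarith) (fun k => ?_) ?_ _
      (le_trans ?_ (mul_le_mul_of_nonneg_right (le_max_right _ _) hh.le))
    · cases k with
      | zero => show τ + h < w a d τ h 0; rw [w0]; linarith
      | succ k => exact wm (Nat.lt_succ_self k)
    · cases k with
      | zero =>
        show S (a ^ m * (τ + h)) = H
        rw [hS m h hh.le (by linarith), g_out (by linarith) (not_le.1 hc).le, hH1]
      | succ k => exact wS k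
    · rw [← hasSum_nat_add_iff' 1]
      have e : (fun n => (1 - p) ^ (n + 1) * p * u (n + 1)) =
          fun n => (1 - p) * ((1 - p) ^ n * p * w a d τ h n) := by
        funext n
        show _ * w a d τ h n = _
        ring
      have e' : p * (τ + h) + (1 - p) * (X + p / r * h) -
          ∑ i ∈ Finset.range 1, (1 - p) ^ i * p * u i = (1 - p) * (X + p / r * h) := by
        rw [Finset.sum_range_one]
        show _ - _ * (τ + h) = _
        ring
      rw [e, e']
      exact ws.mul_left _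
    · have f1 : X ≤ X / b * h := by
        rw [div_mul_eq_mul_div, le_div_iff₀ b0]
        exact mul_le_mul_of_nonneg_left hbh X0.le
      have f2 : p * τ ≤ p * τ / b * h := by
        rw [div_mul_eq_mul_div, le_div_iff₀ b0]
        exact mul_le_mul_of_nonneg_left hbh (by positivity)
      nlinarith [mul_le_mul_of_nonneg_left f1 q0.le]

end Pool.Agent.Results.MP_61cfb3_pr.Retrace
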